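import Pool.Agent.H5.OR.Targets

/-!
# MP_e1fd52_al, board org_modules: Baumslag-Solitar groups, rows BK, BM, BA
-/

set_option autoImplicit false

open scoped Classical

namespace Pool.Agent.H66.OR

open ORg
open scoped commutatorElement

/-- the homomorphism given by the images of the generators -/
noncomputable def bsHom {G : Type} [Group G] {p q : ℤ} (x y : G)
    (h : y * x ^ p * y⁻¹ = x ^ q) : BS p q →* G :=
  PresentedGroup.toGroup (f := fun o : Option Unit => o.elim y (fun _ => x)) (by
    intro r hr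
    rw [Set.mem_singleton_iff] at hr
    subst hr
    simp [relA, h])

theorem bsHom_a {G : Type} [Group G] {p q : ℤ} (x y : G)
    (h : y * x ^ p * y⁻¹ = x ^ q) : bsHom x y h (bsA p q) = x := by
  unfold bsHom bsA
  rw [PresentedGroup.toGroup.of]
  rfl

theorem bsHom_t {G : Type} [Group G] {p q : ℤ} (x y : G)
    (h : y * x ^ p * y⁻¹ = x ^ q) : bsHom x y h (bsT p q) = y := by
  unfold bsHom bsT
  rw [PresentedGroup.toGroup.of]
  rfl

theorem bs_rel (p q : ℤ) : bsT p q * bsA p q ^ p * (bsT p q)⁻¹ = bsA p q ^ q := by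
  have h : PresentedGroup.mk ({relA (FreeGroup.of ()) p q} : Set (FreeGroup (Option Unit)))
      (relA (FreeGroup.of ()) p q) = 1 :=
    (QuotientGroup.eq_one_iff _).2 (Subgroup.subset_normalClosure rfl)
  have h2 : bsT p q * bsA p q ^ p * (bsT p q)⁻¹ * (bsA p q ^ q)⁻¹ = 1 := by
    rw [← h]
    simp only [relA, FreeGroup.map.of]
    rfl
  exact mul_inv_eq_one.1 h2

theorem bs_top {p q : ℤ} (S : Subgroup (BS p q)) (ha : bsA p q ∈ S) (ht : bsT p q ∈ S)
    (g : BS p q) : g ∈ S := by
  have h := PresentedGroup.closure_range_of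
    ({relA (FreeGroup.of ()) p q} : Set (FreeGroup (Option Unit)))
  have h2 : Subgroup.closure (Set.range (PresentedGroup.of :
      Option Unit → BS p q)) ≤ S := by
    rw [Subgroup.closure_le]
    rintro _ ⟨o, rfl⟩
    rcases o with _ | u
    · exact ht
    · exact ha
  have h3 : g ∈ Subgroup.closure (Set.range (PresentedGroup.of :
      Option Unit → BS p q)) := by
    rw [h]
    exact Subgroup.mem_top g
  exact h2 h3

theorem bs_ext {p q : ℤ} {G : Type} [Group G] (f g : BS p q →* G)
    (ha : f (bsA p q) = g (bsA p q)) (ht : f (bsT p q) = g (bsT p q)) : f = g := by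
  refine MonoidHom.ext fun x => ?_
  exact bs_top (f.eqLocus g) ha ht x

/-- translations -/
noncomputable def trHom (A : Type) [AddCommGroup A] : Multiplicative A →* Equiv.Perm A :=
  MonoidHom.mk' (fun a => Equiv.addRight (Multiplicative.toAdd a)) (by
    intro a b
    ext x
    simp only [Equiv.Perm.coe_mul, Function.comp_apply, Equiv.coe_addRight, toAdd_mul]
    abel)

theorem tr_zpow (A : Type) [AddCommGroup A] (a : A) (m : ℤ) :
    (Equiv.addRight a : Equiv.Perm A) ^ m = Equiv.addRight (m • a) := by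
  have h : (Equiv.addRight a : Equiv.Perm A) = trHom A (Multiplicative.ofAdd a) := rfl
  rw [h, ← map_zpow, ← ofAdd_zsmul]
  rfl

/-- the action on the rational numbers -/
noncomputable def rho (p q : ℤ) (hp : p ≠ 0) (hq : q ≠ 0) : BS p q →* Equiv.Perm ℚ :=
  bsHom (Equiv.addRight (1 : ℚ))
    (Equiv.mulLeft₀ ((q : ℚ) / p) (div_ne_zero (by exact_mod_cast hq) (by exact_mod_cast hp))) (by
    have hp' : (p : ℚ) ≠ 0 := by exact_mod_cast hp
    have hq' : (q : ℚ) ≠ 0 := by exact_mod_cast hq
    rw [tr_zpow, tr_zpow]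
    rw [mul_inv_eq_iff_eq_mul]
    ext x
    simp only [Equiv.Perm.coe_mul, Function.comp_apply, Equiv.coe_addRight,
      Equiv.mulLeft₀_apply, zsmul_eq_mul, mul_one]
    field_simp)

theorem rho_a (p q : ℤ) (hp : p ≠ 0) (hq : q ≠ 0) (m : ℤ) (x : ℚ) :
    rho p q hp hq (bsA p q ^ m) x = x + m := by
  rw [map_zpow]
  unfold rho
  rw [bsHom_a, tr_zpow]
  simp

theorem rho_t (p q : ℤ) (hp : p ≠ 0) (hq : q ≠ 0) (x : ℚ) :
    rho p q hp hq (bsT p q) x = (q : ℚ) / p * x := by
  unfold rho
  rw [bsHom_t]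
  simp

theorem pf_BK : T_BK := by
  intro p q hp hq
  have hinf : Inf (bsA p q) := by
    intro n hn h
    have h1 := rho_a p q hp hq n 0
    rw [h, map_one] at h1
    simp at h1
    exact hn (by exact_mod_cast h1.symm)
  refine ⟨⟨bsA p q, bsT p q, hinf, ?_, ?_⟩, hinf⟩
  · intro g
    let S : Subgroup (BS p q) :=
      { carrier := {g | ∃ m n : ℤ, m ≠ 0 ∧ n ≠ 0 ∧ g * bsA p q ^ m * g⁻¹ = bsA p q ^ n}
        mul_mem' := by
          rintro g h ⟨m, n, hm, hn, e⟩ ⟨m', n', hm', hn', e'⟩
          refine ⟨m' * m, n * n', mul_ne_zero hm' hm, mul_ne_zero hn hn', ?_⟩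
          calc g * h * bsA p q ^ (m' * m) * (g * h)⁻¹
              = g * (h * bsA p q ^ m' * h⁻¹) ^ m * g⁻¹ := by
                rw [conj_zpow, zpow_mul]
                group
            _ = g * (bsA p q ^ n') ^ m * g⁻¹ := by rw [e']
            _ = (g * bsA p q ^ m * g⁻¹) ^ n' := by
                rw [conj_zpow, ← zpow_mul, ← zpow_mul, mul_comm]
            _ = bsA p q ^ (n * n') := by rw [e, zpow_mul]
        one_mem' := ⟨1, 1, one_ne_zero, one_ne_zero, by simp⟩
        inv_mem' := by
          rintro g ⟨m, n, hm, hn, e⟩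
          refine ⟨n, m, hn, hm, ?_⟩
          rw [← e]
          group }
    refine bs_top S ?_ ?_ g
    · exact ⟨1, 1, one_ne_zero, one_ne_zero, by simp⟩
    · exact ⟨p, q, hp, hq, bs_rel p q⟩
  · intro m hm h
    obtain ⟨k, hk⟩ := Subgroup.mem_zpowers_iff.1 h
    let f : BS p q →* Multiplicative ℤ := bsHom 1 (Multiplicative.ofAdd 1) (by simp)
    have h1 : f (bsA p q ^ k) = f (bsT p q ^ m) := by rw [hk]
    rw [map_zpow, map_zpow, bsHom_a, bsHom_t, one_zpow, ← ofAdd_zsmul] at h1
    have h2 : (0 : ℤ) = m • (1 : ℤ) := by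
      have := congrArg Multiplicative.toAdd h1
      simpa using this
    simp at h2
    exact hm h2.symm

theorem pf_BM : T_BM := by
  intro p q hp hq
  have hp' : (p : ℚ) ≠ 0 := by exact_mod_cast hp
  have hq' : (q : ℚ) ≠ 0 := by exact_mod_cast hq
  let D : BS p q →* ℚˣ := bsHom 1 (Units.mk0 ((q : ℚ) / p) (div_ne_zero hq' hp')) (by simp)
  have hDa : D (bsA p q) = 1 := bsHom_a _ _ _
  have hDt : D (bsT p q) = Units.mk0 ((q : ℚ) / p) (div_ne_zero hq' hp') := bsHom_t _ _ _
  have haff : ∀ g : BS p q, ∃ c : ℚ, ∀ x : ℚ, rho p q hp hq g x = ((D g : ℚˣ) : ℚ) * x + c := by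
    intro g
    let S : Subgroup (BS p q) :=
      { carrier := {g | ∃ c : ℚ, ∀ x : ℚ, rho p q hp hq g x = ((D g : ℚˣ) : ℚ) * x + c}
        mul_mem' := by
          rintro g h ⟨c, hc⟩ ⟨d, hd⟩
          refine ⟨((D g : ℚˣ) : ℚ) * d + c, fun x => ?_⟩
          rw [map_mul, map_mul, Equiv.Perm.coe_mul, Function.comp_apply, hd, hc, Units.val_mul]
          ring
        one_mem' := ⟨0, fun x => by simp⟩
        inv_mem' := by
          rintro g ⟨c, hc⟩
          refine ⟨-((((D g)⁻¹ : ℚˣ) : ℚ) * c), fun x => ?_⟩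
          rw [map_inv, map_inv, Equiv.Perm.inv_eq_iff_eq, hc]
          have : ((D g : ℚˣ) : ℚ) * (((D g)⁻¹ : ℚˣ) : ℚ) = 1 := Units.mul_inv _
          linear_combination (c - x) * this }
    refine bs_top S ?_ ?_ g
    · refine ⟨1, fun x => ?_⟩
      have h := rho_a p q hp hq 1 x
      rw [zpow_one] at h
      rw [h, hDa]
      simp
    · refine ⟨0, fun x => ?_⟩
      rw [rho_t, hDt]
      simp
  refine ⟨D, by rw [hDt]; rfl, hDa, ?_⟩
  intro g m n h
  obtain ⟨c, hc⟩ := haff g
  have h1 : g * bsA p q ^ m = bsA p q ^ n * g := mul_inv_eq_iff_eq_mul.1 h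
  have h2 : rho p q hp hq (g * bsA p q ^ m) 0 = rho p q hp hq (bsA p q ^ n * g) 0 := by rw [h1]
  rw [map_mul, map_mul, Equiv.Perm.coe_mul, Equiv.Perm.coe_mul, Function.comp_apply,
    Function.comp_apply, rho_a, rho_a, hc, hc] at h2
  linarith

/-- permutations of a set with one more point -/
noncomputable def optHom (α : Type) : Equiv.Perm α →* Equiv.Perm (Option α) :=
  MonoidHom.mk' (fun e => Equiv.optionCongr e) (by
    intro a b
    ext x
    rcases x with _ | x <;> simp)

theorem pf_BA : T_BA := by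
  intro p q hp hq
  refine ⟨?_, ?_⟩
  · intro m
    constructor
    · intro h
      let x : Multiplicative (ZMod (p - q).natAbs) := Multiplicative.ofAdd 1
      have hx : ∀ k : ℤ, x ^ k = Multiplicative.ofAdd (k : ZMod (p - q).natAbs) := by
        intro k
        rw [← ofAdd_zsmul]
        simp
      let f : BS p q →* Multiplicative (ZMod (p - q).natAbs) := bsHom x 1 (by
        rw [hx, hx, one_mul, inv_one, mul_one]
        congr 1
        have : ((p - q : ℤ) : ZMod (p - q).natAbs) = 0 := by
          rw [ZMod.intCast_zmod_eq_zero_iff_dvd, Int.natCast_natAbs, abs_dvd]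
        rw [Int.cast_sub, sub_eq_zero] at this
        exact this)
      have h1 : bsA p q ^ m ∈ f.ker := Abelianization.commutator_subset_ker f h
      rw [MonoidHom.mem_ker, map_zpow, bsHom_a, hx] at h1
      have h2 : (m : ZMod (p - q).natAbs) = 0 := by
        have := congrArg Multiplicative.toAdd h1
        simpa using this
      rw [ZMod.intCast_zmod_eq_zero_iff_dvd, Int.natCast_natAbs, abs_dvd] at h2
      exact h2
    · rintro ⟨k, rfl⟩
      rw [zpow_mul]
      refine Subgroup.zpow_mem _ ?_ k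
      have e : bsA p q ^ (p - q) = ⁅bsA p q ^ p, bsT p q⁆ := by
        rw [zpow_sub, ← bs_rel p q, commutatorElement_def]
        group
      rw [e]
      exact Subgroup.commutator_mem_commutator (Subgroup.mem_top _) (Subgroup.mem_top _)
  · intro m
    constructor
    · intro h
      have hN : ((p : ℤ) : ZMod p.natAbs) = 0 := by
        rw [ZMod.intCast_zmod_eq_zero_iff_dvd, Int.natCast_natAbs, abs_dvd]
      let x : Equiv.Perm (Option (ZMod p.natAbs)) := optHom _ (Equiv.addRight (1 : ZMod p.natAbs))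
      have hx : ∀ k : ℤ, x ^ k = optHom _ (Equiv.addRight ((k : ℤ) : ZMod p.natAbs)) := by
        intro k
        rw [← map_zpow, tr_zpow]
        simp
      have hxp : x ^ p = 1 := by
        rw [hx, hN, Equiv.addRight_zero, map_one]
      let f : BS p p →* Equiv.Perm (Option (ZMod p.natAbs)) :=
        bsHom x (Equiv.swap none (some 0)) (by rw [hxp]; simp)
      have h1 := congrArg f (h (bsT p p))
      rw [map_mul, map_mul, map_zpow, bsHom_a, bsHom_t, hx] at h1
      have h2 := congrArg (fun e : Equiv.Perm (Option (ZMod p.natAbs)) => e none) h1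
      have h3 : (optHom (ZMod p.natAbs) (Equiv.addRight ((m : ℤ) : ZMod p.natAbs))) none = none := rfl
      have h4 : (optHom (ZMod p.natAbs) (Equiv.addRight ((m : ℤ) : ZMod p.natAbs))) (some 0) =
          some (0 + ((m : ℤ) : ZMod p.natAbs)) := rfl
      simp only [Equiv.Perm.coe_mul, Function.comp_apply, h3, Equiv.swap_apply_left, h4,
        zero_add, Option.some.injEq] at h2
      have h5 : ((m : ℤ) : ZMod p.natAbs) = 0 := h2.symm
      rw [ZMod.intCast_zmod_eq_zero_iff_dvd, Int.natCast_natAbs, abs_dvd] at h5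
      exact h5
    · rintro ⟨k, rfl⟩ g
      have hc : g ∈ Subgroup.centralizer {bsA p p ^ p} := by
        refine bs_top _ ?_ ?_ g
        · rw [Subgroup.mem_centralizer_singleton_iff]
          rw [← zpow_one_add, ← zpow_add_one, add_comm]
        · rw [Subgroup.mem_centralizer_singleton_iff]
          exact mul_inv_eq_iff_eq_mul.1 (bs_rel p p)
      rw [Subgroup.mem_centralizer_singleton_iff] at hc
      have : Commute g (bsA p p ^ p) := hc
      rw [zpow_mul]
      exact this.zpow_right k

end Pool.Agent.H66.OR
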