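import Pool.Agent.H5.OR.Defs2
import Pool.Agent.H66.OR.Base

/-!
# MP_e1fd52_al, board org_modules: row BW
-/

set_option autoImplicit false

open scoped Classical

namespace Pool.Agent.H66.OR

open ORg

/-- the shift of the first coordinate -/
def xh (N : ℕ) : Multiplicative ℤ →* Equiv.Perm (ZMod N × ℤ) :=
  MonoidHom.mk' (fun n => Equiv.prodCongr (Equiv.addRight ((Multiplicative.toAdd n : ℤ) : ZMod N))
    (Equiv.refl ℤ)) (by
    intro a b
    ext z
    · simp only [Equiv.prodCongr_apply, Prod.map_fst, Equiv.coe_addRight, toAdd_mul,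
        Equiv.Perm.coe_mul, Function.comp_apply, Int.cast_add]
      ring
    · simp)

/-- the shift of the second coordinate on one fibre -/
def yh (N : ℕ) : Multiplicative ℤ →* Equiv.Perm (ZMod N × ℤ) :=
  MonoidHom.mk' (fun n => Equiv.prodShear (Equiv.refl (ZMod N))
    (fun i => Equiv.addRight (if i = 0 then (Multiplicative.toAdd n : ℤ) else 0))) (by
    intro a b
    ext z
    · rfl
    · simp only [Equiv.prodShear_apply, Equiv.Perm.coe_mul, Function.comp_apply, Equiv.refl_apply,
        Equiv.coe_addRight, toAdd_mul]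
      split_ifs <;> ring)

theorem xh_apply (N : ℕ) (n : ℤ) (i : ZMod N) (k : ℤ) :
    xh N (Multiplicative.ofAdd n) (i, k) = (i + (n : ZMod N), k) := rfl

theorem yh_apply (N : ℕ) (n : ℤ) (i : ZMod N) (k : ℤ) :
    yh N (Multiplicative.ofAdd n) (i, k) = (i, k + (if i = 0 then n else 0)) := rfl

theorem xh_zpow (N : ℕ) (m : ℤ) : (xh N (Multiplicative.ofAdd 1)) ^ m =
    xh N (Multiplicative.ofAdd m) := by
  rw [← map_zpow, ← ofAdd_zsmul]
  simp

theorem yh_zpow (N : ℕ) (m : ℤ) : (yh N (Multiplicative.ofAdd 1)) ^ m =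
    yh N (Multiplicative.ofAdd m) := by
  rw [← map_zpow, ← ofAdd_zsmul]
  simp

/-- the wreath product representation -/
noncomputable def wr (p q : ℤ) (h : |p| = |q|) : BS p q →* Equiv.Perm (ZMod p.natAbs × ℤ) :=
  bsHom (xh p.natAbs (Multiplicative.ofAdd 1)) (yh p.natAbs (Multiplicative.ofAdd 1)) (by
    have e : ∀ r : ℤ, |p| = |r| → (xh p.natAbs (Multiplicative.ofAdd 1)) ^ r = 1 := by
      intro r hr
      rw [xh_zpow]
      ext z
      · obtain ⟨i, k⟩ := z
        rw [xh_apply]
        have : ((r : ℤ) : ZMod p.natAbs) = 0 := by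
          rw [ZMod.intCast_zmod_eq_zero_iff_dvd, Int.natCast_natAbs, hr, abs_dvd]
        rw [this]
        simp
      · rfl
    rw [e p rfl, e q h]
    simp)

theorem wr_a (p q : ℤ) (h : |p| = |q|) :
    wr p q h (bsA p q) = xh p.natAbs (Multiplicative.ofAdd 1) := bsHom_a _ _ _

theorem wr_t (p q : ℤ) (h : |p| = |q|) :
    wr p q h (bsT p q) = yh p.natAbs (Multiplicative.ofAdd 1) := bsHom_t _ _ _

theorem cyc_iso {G : Type} [Group G] (N : ℕ) (t1 : G) (ht : t1 ^ N = 1)
    (F : G →* Multiplicative (ZMod N)) (hF : F t1 = Multiplicative.ofAdd 1)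
    (hgen : ∀ g : G, g ∈ Subgroup.zpowers t1) : Nonempty (G ≃* Multiplicative (ZMod N)) := by
  have hz : ∀ m : ℤ, F (t1 ^ m) = Multiplicative.ofAdd ((m : ℤ) : ZMod N) := by
    intro m
    rw [map_zpow, hF, ← ofAdd_zsmul]
    congr 1
    simp
  refine ⟨MulEquiv.ofBijective F ⟨?_, ?_⟩⟩
  · rw [injective_iff_map_eq_one]
    intro g hg
    obtain ⟨m, rfl⟩ := Subgroup.mem_zpowers_iff.1 (hgen g)
    rw [hz, ofAdd_eq_one, ZMod.intCast_zmod_eq_zero_iff_dvd] at hg
    obtain ⟨k, rfl⟩ := hg
    rw [zpow_mul, zpow_natCast, ht, one_zpow]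
  · intro x
    obtain ⟨m, hm⟩ := ZMod.intCast_surjective (Multiplicative.toAdd x)
    refine ⟨t1 ^ m, ?_⟩
    rw [hz, hm]
    rfl

theorem pf_BW : T_BW := by
  refine ⟨?_, ?_, ?_, ?_⟩
  · intro p q n hn h
    let f : BS p q →* Multiplicative ℤ := bsHom 1 (Multiplicative.ofAdd 1) (by simp)
    have h1 : f (bsT p q ^ n) = 1 := by rw [h, map_one]
    rw [map_zpow, bsHom_t, ← ofAdd_zsmul] at h1
    have h2 : n • (1 : ℤ) = 0 := by
      have := congrArg Multiplicative.toAdd h1
      simpa using this
    simp at h2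
    exact hn h2
  · intro p hp f hfa hft g hg
    have hrep : ∀ g : BS p p, ∃ s : ZMod p.natAbs → ℤ, ∀ (i : ZMod p.natAbs) (k : ℤ),
        wr p p rfl g (i, k) = (i + ((Multiplicative.toAdd (f g) : ℤ) : ZMod p.natAbs), k + s i) := by
      intro g
      let S : Subgroup (BS p p) :=
        { carrier := {g | ∃ s : ZMod p.natAbs → ℤ, ∀ (i : ZMod p.natAbs) (k : ℤ),
            wr p p rfl g (i, k) =
              (i + ((Multiplicative.toAdd (f g) : ℤ) : ZMod p.natAbs), k + s i)}
          mul_mem' := by
            rintro g h ⟨s, hs⟩ ⟨s', hs'⟩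
            refine ⟨fun i => s' i +
              s (i + ((Multiplicative.toAdd (f h) : ℤ) : ZMod p.natAbs)), fun i k => ?_⟩
            rw [map_mul, map_mul, Equiv.Perm.coe_mul, Function.comp_apply, hs', hs, toAdd_mul]
            ext
            · simp only [Int.cast_add]
              ring
            · simp only
              ring
          one_mem' := ⟨fun _ => 0, fun i k => by simp⟩
          inv_mem' := by
            rintro g ⟨s, hs⟩
            refine ⟨fun i => -s (i - ((Multiplicative.toAdd (f g) : ℤ) : ZMod p.natAbs)),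
              fun i k => ?_⟩
            rw [map_inv, map_inv, Equiv.Perm.inv_eq_iff_eq, hs, toAdd_inv]
            ext
            · simp only [Int.cast_neg]
              ring
            · simp only [Int.cast_neg]
              rw [← sub_eq_add_neg]
              ring_nf }
      refine bs_top S ?_ ?_ g
      · refine ⟨fun _ => 0, fun i k => ?_⟩
        rw [wr_a, hfa, xh_apply]
        simp
      · refine ⟨fun i => if i = 0 then 1 else 0, fun i k => ?_⟩
        rw [wr_t, hft, yh_apply]
        simp
    obtain ⟨s, hs⟩ := hrep g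
    have h1 := congrArg (fun u => wr p p rfl u (0, 0)) hg
    simp only [map_mul, Equiv.Perm.coe_mul, Function.comp_apply] at h1
    rw [hs, wr_t, yh_apply, yh_apply, hs] at h1
    have h2 := congrArg Prod.snd h1
    simp only [zero_add] at h2
    by_contra hdvd
    have h3 : ((Multiplicative.toAdd (f g) : ℤ) : ZMod p.natAbs) ≠ 0 := by
      intro h0
      rw [ZMod.intCast_zmod_eq_zero_iff_dvd, Int.natCast_natAbs, abs_dvd] at h0
      exact hdvd h0
    rw [if_neg h3] at h2
    simp at h2
  · intro p q hp hpq m n hm h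
    have h1 := congrArg (fun u => wr p q hpq u (1, 0)) h
    simp only [map_mul, map_inv, map_zpow, Equiv.Perm.coe_mul, Function.comp_apply] at h1
    rw [wr_a, wr_t, yh_zpow, yh_zpow, ← map_inv, ← ofAdd_neg, xh_apply, yh_apply, xh_apply,
      yh_apply] at h1
    have h2 := congrArg Prod.snd h1
    simp only [zero_add] at h2
    have e : (1 : ZMod p.natAbs) + ((-1 : ℤ) : ZMod p.natAbs) = 0 := by simp
    rw [if_pos e] at h2
    by_cases h3 : (1 : ZMod p.natAbs) = 0
    · have h4 : ((1 : ℤ) : ZMod p.natAbs) = 0 := by simpa using h3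
      rw [ZMod.intCast_zmod_eq_zero_iff_dvd, Int.natCast_natAbs] at h4
      have h5 := Int.le_of_dvd one_pos h4
      have h6 : 0 < |p| := abs_pos.2 hp
      omega
    · rw [if_neg h3] at h2
      exact absurd h2 hm
  · intro p q hp hq
    set N := Subgroup.normalClosure {bsT p q} with hN
    have hcast : ∀ k : ℤ, (Multiplicative.ofAdd (1 : ZMod (p - q).natAbs)) ^ k =
        Multiplicative.ofAdd ((k : ℤ) : ZMod (p - q).natAbs) := by
      intro k
      rw [← ofAdd_zsmul]
      congr 1
      simp
    let f : BS p q →* Multiplicative (ZMod (p - q).natAbs) := bsHom (Multiplicative.ofAdd 1) 1 (by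
      rw [hcast, hcast, one_mul, inv_one, mul_one]
      congr 1
      have : ((p - q : ℤ) : ZMod (p - q).natAbs) = 0 := by
        rw [ZMod.intCast_zmod_eq_zero_iff_dvd, Int.natCast_natAbs, abs_dvd]
      rw [Int.cast_sub, sub_eq_zero] at this
      exact this)
    have hfa : f (bsA p q) = Multiplicative.ofAdd 1 := bsHom_a _ _ _
    have hft : f (bsT p q) = 1 := bsHom_t _ _ _
    have hker : N ≤ f.ker := by
      rw [hN]
      apply Subgroup.normalClosure_le_normal
      intro x hx
      rw [Set.mem_singleton_iff] at hx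
      subst hx
      exact hft
    let F : BS p q ⧸ N →* Multiplicative (ZMod (p - q).natAbs) := QuotientGroup.lift N f hker
    let a1 : BS p q ⧸ N := QuotientGroup.mk (bsA p q)
    have ht1 : (QuotientGroup.mk (bsT p q) : BS p q ⧸ N) = 1 := by
      rw [QuotientGroup.eq_one_iff]
      exact Subgroup.subset_normalClosure rfl
    have hpow : a1 ^ p = a1 ^ q := by
      have h := congrArg (QuotientGroup.mk' N) (bs_rel p q)
      rw [map_mul, map_mul, map_zpow, map_zpow, map_inv] at h
      have e1 : QuotientGroup.mk' N (bsT p q) = 1 := ht1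
      have e2 : QuotientGroup.mk' N (bsA p q) = a1 := rfl
      rw [e1, e2, one_mul, inv_one, mul_one] at h
      exact h
    have hpow2 : a1 ^ (p - q) = 1 := by
      rw [zpow_sub, hpow, mul_inv_cancel]
    have hpow3 : a1 ^ (p - q).natAbs = 1 := by
      rw [← zpow_natCast]
      rcases abs_choice (p - q) with h | h
      · rw [Int.natCast_natAbs, h, hpow2]
      · rw [Int.natCast_natAbs, h, zpow_neg, hpow2, inv_one]
    refine cyc_iso (p - q).natAbs a1 hpow3 F ?_ ?_
    · change F (QuotientGroup.mk (bsA p q)) = _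
      rw [QuotientGroup.lift_mk]
      exact hfa
    · intro g
      obtain ⟨g, rfl⟩ := QuotientGroup.mk_surjective g
      refine bs_top ((Subgroup.zpowers a1).comap (QuotientGroup.mk' N)) ?_ ?_ g
      · exact Subgroup.mem_zpowers a1
      · rw [Subgroup.mem_comap]
        have e1 : QuotientGroup.mk' N (bsT p q) = 1 := ht1
        rw [e1]
        exact one_mem _

end Pool.Agent.H66.OR
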