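import Pool.Agent.H5.OR.Defs2
import Pool.Agent.H66.OR.BW

/-!
# MP_e1fd52_al, board org_modules: row BT
-/

set_option autoImplicit false

open scoped Classical

namespace Pool.Agent.H66.OR

open ORg

theorem bs_iso2 (p q p' q' s : ℤ) (hs : s * s = 1)
    (h1 : bsT p' q' ^ s * (bsA p' q') ^ p * (bsT p' q' ^ s)⁻¹ = (bsA p' q') ^ q)
    (h2 : bsT p q ^ s * (bsA p q) ^ p' * (bsT p q ^ s)⁻¹ = (bsA p q) ^ q') :
    ∃ β : BS p q ≃* BS p' q', β (bsA p q) = bsA p' q' ∧ β (bsT p q) = bsT p' q' ^ s := by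
  refine ⟨MonoidHom.toMulEquiv (bsHom (bsA p' q') (bsT p' q' ^ s) h1)
    (bsHom (bsA p q) (bsT p q ^ s) h2) ?_ ?_, ?_, ?_⟩
  · refine bs_ext _ _ ?_ ?_
    · rw [MonoidHom.comp_apply, bsHom_a, bsHom_a]
      rfl
    · rw [MonoidHom.comp_apply, bsHom_t, map_zpow, bsHom_t, ← zpow_mul, hs, zpow_one]
      rfl
  · refine bs_ext _ _ ?_ ?_
    · rw [MonoidHom.comp_apply, bsHom_a, bsHom_a]
      rfl
    · rw [MonoidHom.comp_apply, bsHom_t, map_zpow, bsHom_t, ← zpow_mul, hs, zpow_one]
      rfl
  · rw [MonoidHom.toMulEquiv_apply, bsHom_a]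
  · rw [MonoidHom.toMulEquiv_apply, bsHom_t]

theorem bs_rel_k (p q k : ℤ) : bsT p q * bsA p q ^ (p * k) * (bsT p q)⁻¹ =
    bsA p q ^ (q * k) := by
  rw [zpow_mul, ← conj_zpow, bs_rel, ← zpow_mul]

/-- isomorphisms and quotients -/
theorem quot_card {G H : Type} [Group G] [Group H] (β : G ≃* H) (x : G) (y : H)
    (h : β x = y ∨ β x = y⁻¹) (m n : ℕ)
    (h1 : Nonempty (G ⧸ Subgroup.normalClosure {x} ≃* Multiplicative (ZMod m)))
    (h2 : Nonempty (H ⧸ Subgroup.normalClosure {y} ≃* Multiplicative (ZMod n))) : m = n := by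
  obtain ⟨e1⟩ := h1
  obtain ⟨e2⟩ := h2
  have hmap : (Subgroup.normalClosure {x}).map (β : G →* H) = Subgroup.normalClosure {y} := by
    rw [Subgroup.map_normalClosure _ _ β.surjective, Set.image_singleton]
    rcases h with h | h
    · rw [MonoidHom.coe_coe, h]
    · rw [MonoidHom.coe_coe, h]
      apply le_antisymm
      · apply Subgroup.normalClosure_le_normal
        rw [Set.singleton_subset_iff]
        exact inv_mem (Subgroup.subset_normalClosure rfl)
      · apply Subgroup.normalClosure_le_normal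
        rw [Set.singleton_subset_iff]
        have : y⁻¹ ∈ Subgroup.normalClosure {y⁻¹} := Subgroup.subset_normalClosure rfl
        have h3 := inv_mem this
        rwa [inv_inv] at h3
  have e3 : G ⧸ Subgroup.normalClosure {x} ≃* H ⧸ Subgroup.normalClosure {y} :=
    QuotientGroup.congr _ _ β hmap
  have e4 : ZMod m ≃ ZMod n :=
    (Multiplicative.ofAdd.trans ((e1.symm.trans (e3.trans e2)).toEquiv)).trans
      Multiplicative.toAdd
  have h5 := Nat.card_congr e4
  rwa [Nat.card_zmod, Nat.card_zmod] at h5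

theorem gen_top {p q p' q' : ℤ} (β : BS p q ≃* BS p' q') (hβ : β (bsT p q) = bsT p' q')
    (S : Subgroup (BS p q)) (ht : bsT p q ∈ S) (hA : β.symm (bsA p' q') ∈ S)
    (g : BS p q) : g ∈ S := by
  have h1 := bs_top (S.comap (β.symm : BS p' q' →* BS p q)) hA (by
    rw [Subgroup.mem_comap]
    have : β.symm (bsT p' q') = bsT p q := by rw [← hβ, MulEquiv.symm_apply_apply]
    rw [MonoidHom.coe_coe, this]
    exact ht) (β g)
  rw [Subgroup.mem_comap, MonoidHom.coe_coe, MulEquiv.symm_apply_apply] at h1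
  exact h1

theorem rat_root (x : ℚ) (k : ℤ) (hk : k ≠ 0) (h : |x| ^ k = 1) : |x| = 1 := by
  by_contra hx
  by_cases h0 : |x| = 0
  · rw [h0, zero_zpow _ hk] at h
    exact zero_ne_one h
  have hpos : 0 < |x| := lt_of_le_of_ne (abs_nonneg x) (Ne.symm h0)
  have := zpow_right_injective₀ hpos hx (show |x| ^ k = |x| ^ (0 : ℤ) by rw [h, zpow_zero])
  exact hk this

theorem bt_one (BR : T_BR) (p q p' q' : ℤ) (hp : p ≠ 0) (hq : q ≠ 0)
    (hne : p' ≠ q') (β : BS p q ≃* BS p' q') (hβ : β (bsT p q) = bsT p' q') :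
    q * p' = q' * p ∨ q = -p := by
  obtain ⟨Δ, c, hΔt, hΔa, hct, hca, hc⟩ := BR p q hp hq
  have hpQ : (p : ℚ) ≠ 0 := by exact_mod_cast hp
  have hqQ : (q : ℚ) ≠ 0 := by exact_mod_cast hq
  set A := β.symm (bsA p' q') with hAdef
  have hst : β.symm (bsT p' q') = bsT p q := by rw [← hβ, MulEquiv.symm_apply_apply]
  have hrel : bsT p q * A ^ p' * (bsT p q)⁻¹ = A ^ q' := by
    have h := congrArg β.symm (bs_rel p' q')
    rw [map_mul, map_mul, map_inv, map_zpow, map_zpow, hst] at h
    exact h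
  have hΔA : (Δ A) ^ (p' - q') = 1 := by
    have h := congrArg Δ hrel
    rw [map_mul, map_mul, map_inv, map_zpow, map_zpow, mul_comm (Δ (bsT p q)),
      mul_inv_cancel_right] at h
    rw [zpow_sub, h, mul_inv_cancel]
  have hc1 : c 1 = 0 := by
    have h := hc 1 1
    rw [mul_one, map_one, Units.val_one, one_mul] at h
    linarith
  by_cases hA1 : Δ A = 1
  · left
    have hcA : ∀ k : ℤ, c (A ^ k) = k * c A := by
      intro k
      have hnat : ∀ k : ℕ, c (A ^ k) = k * c A := by
        intro k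
        induction k with
        | zero => rw [pow_zero, hc1]; simp
        | succ k ih =>
          rw [pow_succ, hc, map_pow, hA1, one_pow, Units.val_one, ih]
          push_cast
          ring
      rcases Int.eq_nat_or_neg k with ⟨n, rfl | rfl⟩
      · rw [zpow_natCast, hnat]
        push_cast
        ring
      · have h := hc (A ^ (-(n : ℤ))) (A ^ (n : ℤ))
        rw [← zpow_add, neg_add_cancel, zpow_zero, hc1, map_zpow, hA1, one_zpow, Units.val_one,
          zpow_natCast, hnat] at h
        push_cast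
        linarith
    have hr : c A ≠ 0 := by
      intro h0
      let S : Subgroup (BS p q) :=
        { carrier := {g | c g = 0}
          mul_mem' := by
            intro g h hg hh
            change c (g * h) = 0
            have hg' : c g = 0 := hg
            have hh' : c h = 0 := hh
            rw [hc, hg', hh', mul_zero, zero_add]
          one_mem' := hc1
          inv_mem' := by
            intro g hg
            change c g⁻¹ = 0
            have hg' : c g = 0 := hg
            have h := hc g⁻¹ g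
            rw [inv_mul_cancel, hc1, hg', mul_zero, zero_add] at h
            exact h.symm }
      have h1 : c (bsA p q) = 0 := gen_top β hβ S hct h0 (bsA p q)
      rw [hca] at h1
      exact one_ne_zero h1
    have h1 := congrArg c hrel
    have hctinv : c (bsT p q)⁻¹ = 0 := by
      have h := hc (bsT p q)⁻¹ (bsT p q)
      rw [inv_mul_cancel, hc1, hct, mul_zero, zero_add] at h
      exact h.symm
    rw [hc, hctinv, mul_zero, zero_add, hc, hct, add_zero, hΔt, hcA, hcA] at h1
    have h2 : (q : ℚ) / p * p' = q' := by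
      apply mul_right_cancel₀ hr
      linarith
    have h3 : (q : ℚ) * p' = q' * p := by
      field_simp at h2
      linarith
    exact_mod_cast h3
  · right
    have hne' : p' - q' ≠ 0 := sub_ne_zero.2 hne
    have habs : |((Δ A : ℚˣ) : ℚ)| = 1 := by
      apply rat_root _ (p' - q') hne'
      rw [← abs_zpow, ← Units.val_zpow_eq_zpow_val, hΔA]
      simp
    have hm1 : ((Δ A : ℚˣ) : ℚ) = -1 := by
      rcases eq_or_eq_neg_of_abs_eq habs with h | h
      · exact absurd (Units.ext h) hA1
      · exact h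
    have hr : Δ A ∈ Subgroup.zpowers (Δ (bsT p q)) := by
      have := bs_top ((Subgroup.zpowers (Δ (bsT p q))).comap Δ) (by
        rw [Subgroup.mem_comap, hΔa]
        exact one_mem _) (Subgroup.mem_zpowers _) A
      exact this
    obtain ⟨k, hk⟩ := Subgroup.mem_zpowers_iff.1 hr
    have hk2 : ((q : ℚ) / p) ^ k = -1 := by
      rw [← hΔt, ← Units.val_zpow_eq_zpow_val, hk, hm1]
    have hk0 : k ≠ 0 := by
      rintro rfl
      rw [zpow_zero] at hk2
      norm_num at hk2
    have h3 : |(q : ℚ) / p| = 1 := by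
      apply rat_root _ k hk0
      rw [← abs_zpow, hk2]
      norm_num
    rcases eq_or_eq_neg_of_abs_eq h3 with h | h
    · rw [h, one_zpow] at hk2
      norm_num at hk2
    · rw [div_eq_iff hpQ] at h
      have : (q : ℚ) = -p := by linarith
      exact_mod_cast this

theorem bt_eq (BW : T_BW) (p p' : ℤ) (hp' : p' ≠ 0) (β : BS p p ≃* BS p' p')
    (hβ : β (bsT p p) = bsT p' p') : p' ∣ p := by
  let f : BS p' p' →* Multiplicative ℤ := bsHom (Multiplicative.ofAdd 1) 1 (by simp)
  have hfa : f (bsA p' p') = Multiplicative.ofAdd 1 := bsHom_a _ _ _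
  have hft : f (bsT p' p') = 1 := bsHom_t _ _ _
  have h1 := BW.2.1 p' hp' f hfa hft (β (bsA p p ^ p)) (by
    rw [← hβ, ← map_mul, ← map_mul]
    congr 1
    have := bs_rel p p
    rw [mul_inv_eq_iff_eq_mul] at this
    exact this.symm)
  rw [map_zpow, map_zpow, toAdd_zpow] at h1
  -- the value is a unit
  have h2 : Multiplicative.ofAdd (1 : ℤ) ∈ Subgroup.zpowers (f (β (bsA p p))) := by
    have h3 := bs_top ((Subgroup.zpowers (f (β (bsA p p)))).comap
      (f.comp (β : BS p p →* BS p' p'))) (Subgroup.mem_zpowers _) (by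
      rw [Subgroup.mem_comap, MonoidHom.comp_apply, MonoidHom.coe_coe, hβ, hft]
      exact one_mem _) (β.symm (bsA p' p'))
    rw [Subgroup.mem_comap, MonoidHom.comp_apply, MonoidHom.coe_coe,
      MulEquiv.apply_symm_apply, hfa] at h3
    exact h3
  obtain ⟨k, hk⟩ := Subgroup.mem_zpowers_iff.1 h2
  have hk2 : k * Multiplicative.toAdd (f (β (bsA p p))) = 1 := by
    have := congrArg Multiplicative.toAdd hk
    rw [toAdd_zpow] at this
    simpa using this
  have h4 : p' ∣ p * Multiplicative.toAdd (f (β (bsA p p))) := by simpa using h1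
  have h5 : p = k * (p * Multiplicative.toAdd (f (β (bsA p p)))) := by
    linear_combination (-p) * hk2
  rw [h5]
  exact Dvd.dvd.mul_left h4 k

theorem bt_main (BR : T_BR) (BW : T_BW) (p q p' q' : ℤ) (hp : p ≠ 0) (hq : q ≠ 0)
    (hp' : p' ≠ 0) (hq' : q' ≠ 0) (β : BS p q ≃* BS p' q') (hβ : β (bsT p q) = bsT p' q') :
    pm p q p' q' := by
  have hst : β.symm (bsT p' q') = bsT p q := by rw [← hβ, MulEquiv.symm_apply_apply]
  have hcard := quot_card β (bsT p q) (bsT p' q') (Or.inl hβ) _ _ (BW.2.2.2 p q hp hq)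
    (BW.2.2.2 p' q' hp' hq')
  have habs : p' - q' = p - q ∨ p' - q' = -(p - q) := Int.natAbs_eq_natAbs_iff.1 hcard.symm
  by_cases hpq : p = q
  · subst hpq
    have hpq' : p' = q' := by
      rcases habs with h | h <;> omega
    subst hpq'
    have h1 := bt_eq BW p p' hp' β hβ
    have h2 := bt_eq BW p' p hp β.symm hst
    have := Int.natAbs_eq_natAbs_iff.1 (Nat.dvd_antisymm (Int.natAbs_dvd_natAbs.2 h1)
      (Int.natAbs_dvd_natAbs.2 h2))
    rcases this with h | h
    · left; exact ⟨h, h⟩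
    · right; exact ⟨h, h⟩
  · have hpq' : p' ≠ q' := by
      intro h
      rcases habs with h1 | h1 <;> omega
    have h3 : q * p' = q' * p := by
      rcases bt_one BR p q p' q' hp hq hpq' β hβ with h | h
      · exact h
      rcases bt_one BR p' q' p q hp' hq' hpq β.symm hst with h' | h'
      · exact h'.symm
      · rw [h, h']
        ring
    have hne : p - q ≠ 0 := sub_ne_zero.2 hpq
    rcases habs with h4 | h4
    · left
      have h5 : p' = p := by
        apply mul_right_cancel₀ hne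
        linear_combination -h3 + p * h4
      exact ⟨h5, by linarith⟩
    · right
      have h5 : p' = -p := by
        apply mul_right_cancel₀ hne
        linear_combination -h3 + p * h4
      exact ⟨h5, by linarith⟩

theorem pf_BT (BR : T_BR) (BW : T_BW) : T_BT := by
  have back1 : ∀ p q p' q' : ℤ, pm p q p' q' →
      ∃ β : BS p q ≃* BS p' q', β (bsT p q) = bsT p' q' := by
    rintro p q p' q' (⟨rfl, rfl⟩ | ⟨rfl, rfl⟩)
    · exact ⟨MulEquiv.refl _, rfl⟩
    · obtain ⟨β, -, hβ⟩ := bs_iso2 p q (-p) (-q) 1 (by norm_num) (by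
        have := bs_rel_k (-p) (-q) (-1)
        rw [zpow_one]
        simpa using this) (by
        have := bs_rel_k p q (-1)
        rw [zpow_one]
        simpa using this)
      exact ⟨β, by rw [hβ, zpow_one]⟩
  have swap : ∀ p q : ℤ, ∃ β : BS p q ≃* BS q p, β (bsT p q) = (bsT q p)⁻¹ := by
    intro p q
    obtain ⟨β, -, hβ⟩ := bs_iso2 p q q p (-1) (by norm_num) (by
      rw [zpow_neg, zpow_one, inv_inv, ← bs_rel q p]
      group) (by
      rw [zpow_neg, zpow_one, inv_inv, ← bs_rel p q]
      group)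
    exact ⟨β, by rw [hβ, zpow_neg, zpow_one]⟩
  intro p q p' q' hp hq hp' hq'
  refine ⟨⟨?_, back1 p q p' q'⟩, ?_, ?_⟩
  · rintro ⟨β, hβ⟩
    exact bt_main BR BW p q p' q' hp hq hp' hq' β hβ
  · rintro ⟨β, hβ⟩
    obtain ⟨γ, hγ⟩ := swap p' q'
    have h := bt_main BR BW p q q' p' hp hq hq' hp' (β.trans γ) (by
      rw [MulEquiv.trans_apply, hβ, map_inv, hγ, inv_inv])
    rcases h with ⟨h1, h2⟩ | ⟨h1, h2⟩
    · left; exact ⟨h2, h1⟩
    · right; exact ⟨h2, h1⟩
  · intro h
    have h' : pm p q q' p' := by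
      rcases h with ⟨h1, h2⟩ | ⟨h1, h2⟩
      · left; exact ⟨h2, h1⟩
      · right; exact ⟨h2, h1⟩
    obtain ⟨β, hβ⟩ := back1 p q q' p' h'
    obtain ⟨γ, hγ⟩ := swap q' p'
    exact ⟨β.trans γ, by rw [MulEquiv.trans_apply, hβ, hγ]⟩

end Pool.Agent.H66.OR
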