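import Pool.Agent.H5.OR.Defs2
import Pool.Agent.H5.OR.KI
import Pool.Agent.H66.OR.BT

/-!
# MP_e1fd52_al, board org_modules: rows AB and BD
-/

set_option autoImplicit false

open scoped Classical

namespace Pool.Agent.H66.OR

open ORg

theorem bs_commens (p q : ℤ) (hp : p ≠ 0) (hq : q ≠ 0) (g : BS p q) :
    ∃ m n : ℤ, m ≠ 0 ∧ n ≠ 0 ∧ g * bsA p q ^ m * g⁻¹ = bsA p q ^ n := by
  let S : Subgroup (BS p q) :=
    { carrier := {g | ∃ m n : ℤ, m ≠ 0 ∧ n ≠ 0 ∧ g * bsA p q ^ m * g⁻¹ = bsA p q ^ n}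
      mul_mem' := by
        rintro g h ⟨m, n, hm, hn, e⟩ ⟨m', n', hm', hn', e'⟩
        refine ⟨m' * m, n * n', mul_ne_zero hm' hm, mul_ne_zero hn hn', ?_⟩
        calc g * h * bsA p q ^ (m' * m) * (g * h)⁻¹
            = g * (h * bsA p q ^ m' * h⁻¹) ^ m * g⁻¹ := by
              rw [conj_zpow, zpow_mul]
              group
          _ = g * (bsA p q ^ n') ^ m * g⁻¹ := by rw [e']
          _ = (g * bsA p q ^ m * g⁻¹) ^ n' := by
              rw [conj_zpow, ← zpow_mul, ← zpow_mul, mul_comm]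
          _ = bsA p q ^ (n * n') := by rw [e, zpow_mul]
      one_mem' := ⟨1, 1, one_ne_zero, one_ne_zero, by simp⟩
      inv_mem' := by
        rintro g ⟨m, n, hm, hn, e⟩
        refine ⟨n, m, hn, hm, ?_⟩
        rw [← e]
        group }
  refine bs_top S ?_ ?_ g
  · exact ⟨1, 1, one_ne_zero, one_ne_zero, by simp⟩
  · exact ⟨p, q, hp, hq, bs_rel p q⟩

/-- signs of the identification -/
theorem ab_sign {G H : Type} [Group G] [Group H] (β : G ≃* H) (x : G) (y : H)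
    (h : β x = y ∨ β x = y⁻¹) : ∃ e : ℤ, e * e = 1 ∧ β x = y ^ e := by
  rcases h with h | h
  · exact ⟨1, by norm_num, by rw [h, zpow_one]⟩
  · exact ⟨-1, by norm_num, by rw [h, zpow_neg, zpow_one]⟩

theorem bs_comm_of (p q : ℤ) (h : pm 1 1 p q) (x y : BS p q) : x * y = y * x := by
  have hat : bsA p q * bsT p q = bsT p q * bsA p q := by
    have h1 := bs_rel p q
    rcases h with ⟨rfl, rfl⟩ | ⟨rfl, rfl⟩
    · rw [zpow_one, mul_inv_eq_iff_eq_mul] at h1
      exact h1.symm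
    · rw [zpow_neg, zpow_one, mul_inv_eq_iff_eq_mul] at h1
      have h2 : bsT (-1) (-1) * (bsA (-1) (-1))⁻¹ = (bsA (-1) (-1))⁻¹ * bsT (-1) (-1) := h1
      have h3 : bsA (-1) (-1) * (bsT (-1) (-1) * (bsA (-1) (-1))⁻¹) * bsA (-1) (-1) =
        bsA (-1) (-1) * ((bsA (-1) (-1))⁻¹ * bsT (-1) (-1)) * bsA (-1) (-1) := by rw [h2]
      simpa [mul_assoc] using h3
  have hx : x ∈ Subgroup.centralizer {bsA p q} ∧ x ∈ Subgroup.centralizer {bsT p q} := by
    constructor
    · refine bs_top _ ?_ ?_ x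
      · rw [Subgroup.mem_centralizer_singleton_iff]
      · rw [Subgroup.mem_centralizer_singleton_iff]
        exact hat.symm
    · refine bs_top _ ?_ ?_ x
      · rw [Subgroup.mem_centralizer_singleton_iff]
        exact hat
      · rw [Subgroup.mem_centralizer_singleton_iff]
  rw [Subgroup.mem_centralizer_singleton_iff, Subgroup.mem_centralizer_singleton_iff] at hx
  have hy : y ∈ Subgroup.centralizer {x} := by
    refine bs_top _ ?_ ?_ y
    · rw [Subgroup.mem_centralizer_singleton_iff]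
      exact hx.1.symm
    · rw [Subgroup.mem_centralizer_singleton_iff]
      exact hx.2.symm
  rw [Subgroup.mem_centralizer_singleton_iff] at hy
  exact hy.symm

theorem pm_of_abs (p : ℤ) (h : |p| = 1) : pm 1 1 p p := by
  rcases eq_or_eq_neg_of_abs_eq h with h | h
  · left; exact ⟨h, h⟩
  · right; exact ⟨h, h⟩

theorem ab_back (p q p' q' s : ℤ) (hs : s * s = 1) (h : pm 1 1 p q) (h' : pm 1 1 p' q') :
    ∃ β : BS p q ≃* BS p' q', β (bsA p q) = bsT p' q' ^ s := by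
  have e1 : p = q := by rcases h with ⟨h1, h2⟩ | ⟨h1, h2⟩ <;> rw [h1, h2]
  have e2 : p' = q' := by rcases h' with ⟨h1, h2⟩ | ⟨h1, h2⟩ <;> rw [h1, h2]
  let f : BS p q →* BS p' q' := bsHom (bsT p' q' ^ s) (bsA p' q') (by
    rw [e1, bs_comm_of p' q' h' (bsA p' q'), mul_inv_cancel_right])
  let g : BS p' q' →* BS p q := bsHom (bsT p q) (bsA p q ^ s) (by
    rw [e2, bs_comm_of p q h (bsA p q ^ s), mul_inv_cancel_right])
  have fa : f (bsA p q) = bsT p' q' ^ s := bsHom_a _ _ _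
  have ft : f (bsT p q) = bsA p' q' := bsHom_t _ _ _
  have ga : g (bsA p' q') = bsT p q := bsHom_a _ _ _
  have gt : g (bsT p' q') = bsA p q ^ s := bsHom_t _ _ _
  refine ⟨MonoidHom.toMulEquiv f g ?_ ?_, ?_⟩
  · refine bs_ext _ _ ?_ ?_
    · rw [MonoidHom.comp_apply, fa, map_zpow, gt, ← zpow_mul, hs, zpow_one]
      rfl
    · rw [MonoidHom.comp_apply, ft, ga]
      rfl
  · refine bs_ext _ _ ?_ ?_
    · rw [MonoidHom.comp_apply, ga, ft]
      rfl
    · rw [MonoidHom.comp_apply, gt, map_zpow, fa, ← zpow_mul, hs, zpow_one]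
      rfl
  · rw [MonoidHom.toMulEquiv_apply, fa]

theorem pf_AB (BW : T_BW) (BK : T_BK) : T_AB := by
  intro p q p' q' hp hq hp' hq'
  refine ⟨?_, fun h h' => ⟨?_, ?_⟩⟩
  swap
  · obtain ⟨β, hβ⟩ := ab_back p q p' q' 1 (by norm_num) h h'
    exact ⟨β, by rw [hβ, zpow_one]⟩
  swap
  · obtain ⟨β, hβ⟩ := ab_back p q p' q' (-1) (by norm_num) h h'
    exact ⟨β, by rw [hβ, zpow_neg, zpow_one]⟩
  rintro ⟨β, hβ⟩
  obtain ⟨e, he, hβe⟩ := ab_sign β _ _ hβ
  have he0 : e ≠ 0 := by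
    rintro rfl
    norm_num at he
  have hsym : β.symm (bsT p' q') = bsA p q ^ e := by
    rw [MulEquiv.symm_apply_eq, map_zpow, hβe, ← zpow_mul, he, zpow_one]
  -- `p' = q'`
  let f : BS p q →* Multiplicative ℤ := bsHom 1 (Multiplicative.ofAdd 1) (by simp)
  have hfa : f (bsA p q) = 1 := bsHom_a _ _ _
  have hft : f (bsT p q) = Multiplicative.ofAdd 1 := bsHom_t _ _ _
  have hpq' : p' = q' := by
    have h1 := congrArg (fun u => f (β.symm u)) (bs_rel p' q')
    simp only [map_mul, map_inv, map_zpow] at h1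
    rw [hsym, map_zpow, hfa, one_zpow, one_mul, inv_one, mul_one] at h1
    have h2 : Multiplicative.ofAdd (1 : ℤ) ∈ Subgroup.zpowers (f (β.symm (bsA p' q'))) := by
      have h3 := bs_top ((Subgroup.zpowers (f (β.symm (bsA p' q')))).comap
        (f.comp (β.symm : BS p' q' →* BS p q))) (Subgroup.mem_zpowers _) (by
        rw [Subgroup.mem_comap, MonoidHom.comp_apply, MonoidHom.coe_coe, hsym, map_zpow, hfa,
          one_zpow]
        exact one_mem _) (β (bsT p q))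
      rw [Subgroup.mem_comap, MonoidHom.comp_apply, MonoidHom.coe_coe,
        MulEquiv.symm_apply_apply, hft] at h3
      exact h3
    obtain ⟨k, hk⟩ := Subgroup.mem_zpowers_iff.1 h2
    have hk2 : k * Multiplicative.toAdd (f (β.symm (bsA p' q'))) = 1 := by
      have := congrArg Multiplicative.toAdd hk
      rw [toAdd_zpow] at this
      simpa using this
    have h4 := congrArg Multiplicative.toAdd h1
    rw [toAdd_zpow, toAdd_zpow, zsmul_eq_mul, zsmul_eq_mul] at h4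
    simp only [Int.cast_id] at h4
    linear_combination k * h4 + (q' - p') * hk2
  subst hpq'
  obtain ⟨m, n, hm, hn, hmn⟩ := bs_commens p q hp hq (β.symm (bsA p' p'))
  have h1 := congrArg β hmn
  rw [map_mul, map_mul, map_inv, MulEquiv.apply_symm_apply, map_zpow, map_zpow, hβe,
    ← zpow_mul, ← zpow_mul] at h1
  have h2 := BW.2.2.1 p' p' hp' rfl _ _ (mul_ne_zero he0 hm) h1
  have hpm' := pm_of_abs p' h2
  refine ⟨?_, hpm'⟩
  have hcomm : ∀ x y : BS p q, x * y = y * x := by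
    intro x y
    apply β.injective
    rw [map_mul, map_mul]
    exact bs_comm_of p' p' hpm' _ _
  have hpq : p = q := by
    have h3 := bs_rel p q
    rw [hcomm (bsT p q), mul_inv_cancel_right] at h3
    by_contra hne
    apply (BK p q hp hq).2 (p - q) (sub_ne_zero.2 hne)
    rw [zpow_sub, h3, mul_inv_cancel]
  subst hpq
  have h4 := BW.2.2.1 p p hp rfl 1 1 one_ne_zero (by
    rw [zpow_one, hcomm (bsA p p), mul_inv_cancel_right])
  exact pm_of_abs p h4

/-! ## Row BD -/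

theorem pm_cases (p q : ℤ) (h : pm 1 (-1) p q) : (p = 1 ∧ q = -1) ∨ (p = -1 ∧ q = 1) := by
  rcases h with ⟨h1, h2⟩ | ⟨h1, h2⟩
  · left; exact ⟨h1, h2⟩
  · right; exact ⟨h1, by rw [h2]; norm_num⟩

theorem conj_key {G : Type} [Group G] (A x : G) (h : A * x * A⁻¹ = x⁻¹) :
    A * x⁻¹ * A⁻¹ = x := by
  calc A * x⁻¹ * A⁻¹ = (A * x * A⁻¹)⁻¹ := by group
    _ = x := by rw [h, inv_inv]

theorem bd_rel (p q : ℤ) (h : pm 1 (-1) p q) : bsT p q * bsA p q * (bsT p q)⁻¹ =
    (bsA p q)⁻¹ := by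
  have h1 := bs_rel p q
  rcases pm_cases p q h with ⟨rfl, rfl⟩ | ⟨rfl, rfl⟩
  · rw [zpow_one, zpow_neg, zpow_one] at h1
    exact h1
  · rw [zpow_one, zpow_neg, zpow_one] at h1
    rw [← inv_inj, inv_inv]
    conv_rhs => rw [← h1]
    group

theorem bd_iso (p q p' q' : ℤ) (h : pm 1 (-1) p q) (hp' : |p'| = 2) (hq' : |q'| = 2) :
    ∃ β : BS p q ≃* TK p' q', β (bsT p q) = tkA p' q' := by
  -- signs
  obtain ⟨e1, he1, hp2⟩ : ∃ e1 : ℤ, e1 * e1 = 1 ∧ p' = 2 * e1 := by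
    rcases eq_or_eq_neg_of_abs_eq hp' with h | h
    · exact ⟨1, by norm_num, by rw [h]; norm_num⟩
    · exact ⟨-1, by norm_num, by rw [h]; norm_num⟩
  obtain ⟨e2, he2, hq2⟩ : ∃ e2 : ℤ, e2 * e2 = 1 ∧ q' = 2 * e2 := by
    rcases eq_or_eq_neg_of_abs_eq hq' with h | h
    · exact ⟨1, by norm_num, by rw [h]; norm_num⟩
    · exact ⟨-1, by norm_num, by rw [h]; norm_num⟩
  set A := tkA p' q' with hA
  set T := tkT p' q' with hT
  set e : ℤ := e1 * e2 with he
  have hee : e * e = 1 := by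
    rw [he]
    linear_combination e2 * e2 * he1 + he2
  have hAT : A ^ (2 : ℤ) = T ^ (2 * e) := by
    have h0 := tk_rel p' q'
    rw [← hA, ← hT] at h0
    have h1 : A ^ (2 * e1) = T ^ (2 * e2) := by rw [← hp2, ← hq2, h0]
    have h2 : (A ^ (2 * e1)) ^ e1 = (T ^ (2 * e2)) ^ e1 := by rw [h1]
    rw [← zpow_mul, ← zpow_mul] at h2
    rw [show (2 : ℤ) = 2 * e1 * e1 by rw [mul_assoc, he1, mul_one],
      show 2 * e1 * e1 * e = 2 * e2 * e1 by rw [he]; linear_combination 2 * e1 * e2 * he1, h2]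
  have hB : A * (A⁻¹ * T ^ e) * A⁻¹ = (A⁻¹ * T ^ e)⁻¹ := by
    have h1 : T ^ e * T ^ e = A * A := by
      rw [← zpow_add, ← two_mul, ← hAT, zpow_two]
    rw [mul_inv_cancel_left, mul_inv_rev, inv_inv, mul_inv_eq_iff_eq_mul, eq_comm,
      mul_assoc, inv_mul_eq_iff_eq_mul, h1]
  have hrel : A * (A⁻¹ * T ^ e) ^ p * A⁻¹ = (A⁻¹ * T ^ e) ^ q := by
    rcases pm_cases p q h with ⟨rfl, rfl⟩ | ⟨rfl, rfl⟩
    · rw [zpow_one, zpow_neg, zpow_one]
      exact hB
    · rw [zpow_one, zpow_neg, zpow_one]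
      exact conj_key _ _ hB
  let f : BS p q →* TK p' q' := bsHom (A⁻¹ * T ^ e) A hrel
  have fa : f (bsA p q) = A⁻¹ * T ^ e := bsHom_a _ _ _
  have ft : f (bsT p q) = A := bsHom_t _ _ _
  set a := bsA p q with ha
  set t := bsT p q with ht
  have hr := bd_rel p q h
  rw [← ha, ← ht] at hr
  have hta2 : (t * a) * (t * a) = t * t := by
    have h1 : t * a = a⁻¹ * t := by rw [← hr]; group
    calc (t * a) * (t * a) = (a⁻¹ * t) * (t * a) := by rw [← h1]
      _ = a⁻¹ * t * (a⁻¹ * t) := by rw [h1]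
      _ = a⁻¹ * (t * a⁻¹ * t⁻¹) * (t * t) := by group
      _ = a⁻¹ * (t * a * t⁻¹)⁻¹ * (t * t) := by group
      _ = t * t := by rw [hr]; group
  have hrel2 : t ^ p' = ((t * a) ^ e) ^ q' := by
    rw [← zpow_mul, hp2, hq2, show e * (2 * e2) = 2 * e1 by
      rw [he]; linear_combination 2 * e1 * he2, zpow_mul, zpow_mul, zpow_two, zpow_two, hta2]
  obtain ⟨g, gA, gT⟩ := tk_lift p' q' (BS p q) t ((t * a) ^ e) hrel2
  rw [← hA] at gA
  rw [← hT] at gT
  refine ⟨MonoidHom.toMulEquiv f g ?_ ?_, ?_⟩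
  · refine bs_ext _ _ ?_ ?_
    · rw [MonoidHom.comp_apply, fa, map_mul, map_inv, map_zpow, gA, gT, ← zpow_mul, hee, zpow_one,
        inv_mul_cancel_left]
      rfl
    · rw [MonoidHom.comp_apply, ft, gA]
      rfl
  · refine tk_ext p' q' _ _ _ ?_ ?_
    · rw [MonoidHom.comp_apply, ← hA, gA, ft]
      rfl
    · rw [MonoidHom.comp_apply, ← hT, gT, map_zpow, map_mul, ft, fa, mul_inv_cancel_left,
        ← zpow_mul, hee, zpow_one]
      rfl
  · rw [MonoidHom.toMulEquiv_apply, ft]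

theorem pf_BD (BW : T_BW) (BM : T_BM) (KI : T_KI) : T_BD := by
  intro p q p' q' hp hq hp2 hq2
  have hp' : p' ≠ 0 := by
    rintro rfl
    norm_num at hp2
  refine ⟨?_, fun h h1 h2 => ⟨bd_iso p q p' q' h h1 h2, ?_⟩⟩
  swap
  · obtain ⟨β, hβ⟩ := bd_iso p q p' q' h h1 h2
    have hr := bd_rel p q h
    have hr2 : (bsT p q)⁻¹ * bsA p q * bsT p q = (bsA p q)⁻¹ := by
      have h5 := conj_key _ _ hr
      calc (bsT p q)⁻¹ * bsA p q * bsT p q
          = (bsT p q)⁻¹ * (bsT p q * (bsA p q)⁻¹ * (bsT p q)⁻¹) * bsT p q := by rw [h5]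
        _ = (bsA p q)⁻¹ := by group
    have hr3 : bsT p q ^ (-1 : ℤ) * bsA p q ^ p * (bsT p q ^ (-1 : ℤ))⁻¹ = bsA p q ^ q := by
      rw [zpow_neg, zpow_one]
      rcases pm_cases p q h with ⟨rfl, rfl⟩ | ⟨rfl, rfl⟩
      · rw [zpow_one, zpow_neg, zpow_one, inv_inv]
        exact hr2
      · rw [zpow_one, zpow_neg, zpow_one]
        calc (bsT (-1) 1)⁻¹ * (bsA (-1) 1)⁻¹ * ((bsT (-1) 1)⁻¹)⁻¹
            = ((bsT (-1) 1)⁻¹ * bsA (-1) 1 * bsT (-1) 1)⁻¹ := by group
          _ = bsA (-1) 1 := by rw [hr2, inv_inv]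
    obtain ⟨γ, -, hγ⟩ := bs_iso2 p q p q (-1) (by norm_num) hr3 hr3
    refine ⟨γ.trans β, ?_⟩
    rw [MulEquiv.trans_apply, hγ, map_zpow, hβ, zpow_neg, zpow_one]
  rintro ⟨β, hβ⟩
  obtain ⟨e, he, hβe⟩ := ab_sign β _ _ hβ
  have hcen : ∀ g : BS p q, g * bsT p q ^ p' = bsT p q ^ p' * g := by
    intro g
    have h1 := ((KI p' q' hp2 hq2).1 (e * p')).2 (Dvd.intro_left e rfl) (β g)
    apply β.injective
    rw [map_mul, map_mul, map_zpow, hβe, ← zpow_mul]
    exact h1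
  have habs : |p| = |q| := by
    obtain ⟨D, hDt, hDa, hD⟩ := BM p q hp hq
    have h1 := hD (bsT p q ^ p') 1 1 (by
      rw [zpow_one, ← hcen, mul_inv_cancel_right])
    rw [map_zpow, Units.val_zpow_eq_zpow_val, hDt] at h1
    simp only [Int.cast_one, mul_one] at h1
    have h2 : |(q : ℚ) / p| = 1 := by
      apply rat_root _ p' hp'
      rw [← abs_zpow, ← h1]
      norm_num
    rw [abs_div, div_eq_one_iff_eq (abs_ne_zero.2 (by exact_mod_cast hp))] at h2
    have : ((|q| : ℤ) : ℚ) = ((|p| : ℤ) : ℚ) := by push_cast; exact h2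
    exact_mod_cast this.symm
  have hp1 : |p| = 1 := BW.2.2.1 p q hp habs p' p' hp' (by
    rw [hcen, mul_inv_cancel_right])
  have hcard := quot_card β (bsT p q) (tkA p' q') hβ _ _ (BW.2.2.2 p q hp hq)
    (KI p' q' hp2 hq2).2
  have hq1 : |q| = 1 := by rw [← habs, hp1]
  have hpq : pm 1 (-1) p q ∧ |q'| = 2 := by
    rcases eq_or_eq_neg_of_abs_eq hp1 with h1 | h1 <;>
      rcases eq_or_eq_neg_of_abs_eq hq1 with h2 | h2
    · exfalso
      rw [h1, h2] at hcard
      have h0 : (q'.natAbs : ℤ) = 0 := by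
        rw [← hcard]
        norm_num
      rw [Int.natCast_natAbs] at h0
      rw [h0] at hq2
      norm_num at hq2
    · refine ⟨Or.inl ⟨h1, h2⟩, ?_⟩
      rw [h1, h2] at hcard
      have : (q'.natAbs : ℤ) = 2 := by
        rw [← hcard]
        norm_num
      rwa [Int.natCast_natAbs] at this
    · refine ⟨Or.inr ⟨h1, by rw [h2]; norm_num⟩, ?_⟩
      rw [h1, h2] at hcard
      have : (q'.natAbs : ℤ) = 2 := by
        rw [← hcard]
        norm_num
      rwa [Int.natCast_natAbs] at this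
    · exfalso
      rw [h1, h2] at hcard
      have h0 : (q'.natAbs : ℤ) = 0 := by
        rw [← hcard]
        norm_num
      rw [Int.natCast_natAbs] at h0
      rw [h0] at hq2
      norm_num at hq2
  refine ⟨hpq.1, ?_, hpq.2⟩
  have hr := bd_rel p q hpq.1
  have hcen2 : ∀ g : BS p q, g * bsT p q ^ (2 : ℤ) = bsT p q ^ (2 : ℤ) * g := by
    intro g
    have hc : g ∈ Subgroup.centralizer {bsT p q ^ (2 : ℤ)} := by
      refine bs_top _ ?_ ?_ g
      · rw [Subgroup.mem_centralizer_singleton_iff]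
        have h1 : bsT p q ^ (2 : ℤ) * bsA p q * (bsT p q ^ (2 : ℤ))⁻¹ = bsA p q := by
          calc bsT p q ^ (2 : ℤ) * bsA p q * (bsT p q ^ (2 : ℤ))⁻¹
              = bsT p q * (bsT p q * bsA p q * (bsT p q)⁻¹) * (bsT p q)⁻¹ := by
                rw [zpow_two, mul_inv_rev]
                simp only [mul_assoc]
            _ = bsT p q * (bsA p q)⁻¹ * (bsT p q)⁻¹ := by rw [hr]
            _ = (bsT p q * bsA p q * (bsT p q)⁻¹)⁻¹ := by group
            _ = bsA p q := by rw [hr, inv_inv]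
        rw [mul_inv_eq_iff_eq_mul] at h1
        exact h1.symm
      · rw [Subgroup.mem_centralizer_singleton_iff]
        rw [← zpow_one_add, ← zpow_add_one, add_comm]
    rw [Subgroup.mem_centralizer_singleton_iff] at hc
    exact hc
  have hdvd : p' ∣ 2 := by
    refine ((KI p' q' hp2 hq2).1 2).1 fun g => ?_
    have h1 : β (bsT p q ^ (2 * e)) = tkA p' q' ^ (2 : ℤ) := by
      rw [map_zpow, hβe, ← zpow_mul]
      congr 1
      linear_combination 2 * he
    have h2 : ∀ g : BS p q, g * bsT p q ^ (2 * e) = bsT p q ^ (2 * e) * g := by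
      intro g
      rw [zpow_mul]
      have : Commute g (bsT p q ^ (2 : ℤ)) := hcen2 g
      exact this.zpow_right e
    have h3 := congrArg β (h2 (β.symm g))
    rw [map_mul, map_mul, h1, MulEquiv.apply_symm_apply] at h3
    exact h3
  have h5 : |p'| ≤ 2 := by
    have := Int.le_of_dvd (by norm_num) ((abs_dvd p' 2).2 hdvd)
    exact this
  omega

end Pool.Agent.H66.OR
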