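import Pool.Agent.H66.OR.Base

/-!
# MP_e1fd52_al, board org_modules: row BC
-/

set_option autoImplicit false

open scoped Classical

namespace Pool.Agent.H66.OR

open ORg

theorem bs_iso (p q p' q' e : ℤ) (he : e * e = 1) (s : ℤ) (hs : s * s = 1)
    (h1 : bsT p' q' ^ s * (bsA p' q' ^ e) ^ p * (bsT p' q' ^ s)⁻¹ = (bsA p' q' ^ e) ^ q)
    (h2 : bsT p q ^ s * (bsA p q ^ e) ^ p' * (bsT p q ^ s)⁻¹ = (bsA p q ^ e) ^ q') :
    ∃ β : BS p q ≃* BS p' q', β (bsA p q) = bsA p' q' ^ e := by
  refine ⟨MonoidHom.toMulEquiv (bsHom (bsA p' q' ^ e) (bsT p' q' ^ s) h1)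
    (bsHom (bsA p q ^ e) (bsT p q ^ s) h2) ?_ ?_, ?_⟩
  · refine bs_ext _ _ ?_ ?_
    · rw [MonoidHom.comp_apply, bsHom_a, map_zpow, bsHom_a, ← zpow_mul, he, zpow_one]
      rfl
    · rw [MonoidHom.comp_apply, bsHom_t, map_zpow, bsHom_t, ← zpow_mul, hs, zpow_one]
      rfl
  · refine bs_ext _ _ ?_ ?_
    · rw [MonoidHom.comp_apply, bsHom_a, map_zpow, bsHom_a, ← zpow_mul, he, zpow_one]
      rfl
    · rw [MonoidHom.comp_apply, bsHom_t, map_zpow, bsHom_t, ← zpow_mul, hs, zpow_one]
      rfl
  · rw [MonoidHom.toMulEquiv_apply, bsHom_a]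

/-- the relation for other exponents -/
theorem bs_rel_mul (p q k : ℤ) : bsT p q * bsA p q ^ (p * k) * (bsT p q)⁻¹ =
    bsA p q ^ (q * k) := by
  rw [zpow_mul, ← conj_zpow, bs_rel, ← zpow_mul]

theorem bs_rel_mul' (p q k : ℤ) : (bsT p q)⁻¹ * bsA p q ^ (q * k) * bsT p q =
    bsA p q ^ (p * k) := by
  rw [← bs_rel_mul p q k]
  group

/-- every isomorphism of the list, with both signs -/
theorem bs_iso_all (p q p' q' : ℤ)
    (h : (p' = p ∧ q' = q) ∨ (p' = -p ∧ q' = -q) ∨ (p' = q ∧ q' = p) ∨ (p' = -q ∧ q' = -p))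
    (e : ℤ) (he : e * e = 1) : ∃ β : BS p q ≃* BS p' q', β (bsA p q) = bsA p' q' ^ e := by
  rcases h with ⟨rfl, rfl⟩ | ⟨rfl, rfl⟩ | ⟨rfl, rfl⟩ | ⟨rfl, rfl⟩
  · refine bs_iso _ _ _ _ e he 1 (by norm_num) ?_ ?_
    · have := bs_rel_mul p' q' e
      rw [zpow_one, ← zpow_mul, ← zpow_mul, mul_comm e p', mul_comm e q', this]
    · have := bs_rel_mul p' q' e
      rw [zpow_one, ← zpow_mul, ← zpow_mul, mul_comm e p', mul_comm e q', this]
  · refine bs_iso _ _ _ _ e he 1 (by norm_num) ?_ ?_
    · have := bs_rel_mul (-p) (-q) (-e)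
      rw [zpow_one, ← zpow_mul, ← zpow_mul, show e * p = -p * -e by ring,
        show e * q = -q * -e by ring, this]
    · have := bs_rel_mul p q (-e)
      rw [zpow_one, ← zpow_mul, ← zpow_mul, show e * -p = p * -e by ring,
        show e * -q = q * -e by ring, this]
  · refine bs_iso _ _ _ _ e he (-1) (by norm_num) ?_ ?_
    · have := bs_rel_mul' p' q' e
      rw [zpow_neg, zpow_one, inv_inv, ← zpow_mul, ← zpow_mul, mul_comm e p', mul_comm e q', this]
    · have := bs_rel_mul' q' p' e
      rw [zpow_neg, zpow_one, inv_inv, ← zpow_mul, ← zpow_mul, mul_comm e p', mul_comm e q', this]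
  · refine bs_iso _ _ _ _ e he (-1) (by norm_num) ?_ ?_
    · have := bs_rel_mul' (-q) (-p) (-e)
      rw [zpow_neg, zpow_one, inv_inv, ← zpow_mul, ← zpow_mul, show e * p = -p * -e by ring,
        show e * q = -q * -e by ring, this]
    · have := bs_rel_mul' p q (-e)
      rw [zpow_neg, zpow_one, inv_inv, ← zpow_mul, ← zpow_mul, show e * -q = q * -e by ring,
        show e * -p = p * -e by ring, this]

/-- two units which are powers of each other -/
theorem units_pow (x y : ℚˣ) (hxy : y ∈ Subgroup.zpowers x) (hyx : x ∈ Subgroup.zpowers y) :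
    y = x ∨ y = x⁻¹ := by
  obtain ⟨k, hk⟩ := Subgroup.mem_zpowers_iff.1 hxy
  obtain ⟨l, hl⟩ := Subgroup.mem_zpowers_iff.1 hyx
  have h1 : x ^ (k * l) = x := by rw [zpow_mul, hk, hl]
  by_cases hx : |(x : ℚ)| = 1
  · have hx2 : (x : ℚ) = 1 ∨ (x : ℚ) = -1 := eq_or_eq_neg_of_abs_eq hx
    rcases hx2 with h | h
    · have : x = 1 := Units.ext h
      subst this
      left
      rw [← hk, one_zpow]
    · have hx3 : x = -1 := Units.ext h
      have hy : y = 1 ∨ y = -1 := by
        rw [← hk, hx3]
        rcases Int.even_or_odd k with he | ho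
        · left; exact he.neg_one_zpow
        · right; exact ho.neg_one_zpow
      rcases hy with hy | hy
      · exfalso
        rw [hy, one_zpow] at hl
        rw [← hl] at h
        norm_num at h
      · left; rw [hy, hx3]
  · have hpos : 0 < |(x : ℚ)| := abs_pos.2 x.ne_zero
    have h2 : |(x : ℚ)| ^ (k * l) = |(x : ℚ)| ^ (1 : ℤ) := by
      rw [← abs_zpow, zpow_one]
      have := congrArg (fun u : ℚˣ => |(u : ℚ)|) h1
      simpa using this
    have h3 : k * l = 1 := zpow_right_injective₀ hpos hx h2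
    rcases Int.eq_one_or_neg_one_of_mul_eq_one h3 with h | h
    · left; rw [← hk, h, zpow_one]
    · right; rw [← hk, h, zpow_neg, zpow_one]

theorem pf_BC (BK : T_BK) (BM : T_BM) (BA : T_BA) : T_BC := by
  intro p q p' q' hp hq hp' hq'
  refine ⟨?_, fun h => ⟨?_, ?_⟩⟩
  swap
  · obtain ⟨β, hβ⟩ := bs_iso_all p q p' q' h 1 (by norm_num)
    exact ⟨β, by rw [hβ, zpow_one]⟩
  swap
  · obtain ⟨β, hβ⟩ := bs_iso_all p q p' q' h (-1) (by norm_num)
    exact ⟨β, by rw [hβ, zpow_neg, zpow_one]⟩
  rintro ⟨β, hβ⟩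
  obtain ⟨e, he, hβe⟩ : ∃ e : ℤ, e * e = 1 ∧ β (bsA p q) = bsA p' q' ^ e := by
    rcases hβ with h | h
    · exact ⟨1, by norm_num, by rw [h, zpow_one]⟩
    · exact ⟨-1, by norm_num, by rw [h, zpow_neg, zpow_one]⟩
  have he0 : e ≠ 0 := by
    rintro rfl
    norm_num at he
  have hβm : ∀ m : ℤ, β (bsA p q ^ m) = bsA p' q' ^ (e * m) := by
    intro m
    rw [map_zpow, hβe, ← zpow_mul]
  have hsym : β.symm (bsA p' q') = bsA p q ^ e := by
    rw [MulEquiv.symm_apply_eq, hβm, he, zpow_one]
  have hsm : ∀ m : ℤ, β.symm (bsA p' q' ^ m) = bsA p q ^ (e * m) := by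
    intro m
    rw [map_zpow, hsym, ← zpow_mul]
  -- commutator subgroups
  have hcom : ∀ (G H : Type) [Group G] [Group H] (f : G →* H) (g : G), g ∈ commutator G →
      f g ∈ commutator H := by
    intro G H _ _ f g hg
    have h1 : (commutator G).map f ≤ commutator H := by
      rw [commutator_def, commutator_def, Subgroup.map_commutator]
      exact Subgroup.commutator_mono le_top le_top
    exact h1 (Subgroup.mem_map_of_mem f hg)
  have hd1 : (p - q) ∣ (p' - q') := by
    have h1 : bsA p' q' ^ (p' - q') ∈ commutator (BS p' q') :=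
      ((BA p' q' hp' hq').1 _).2 dvd_rfl
    have h2 := hcom _ _ β.symm.toMonoidHom _ h1
    have h3 : bsA p q ^ (e * (p' - q')) ∈ commutator (BS p q) := by
      rw [← hsm]
      exact h2
    have h4 := ((BA p q hp hq).1 _).1 h3
    have h5 : p' - q' = e * (e * (p' - q')) := by rw [← mul_assoc, he, one_mul]
    rw [h5]
    exact Dvd.dvd.mul_left h4 e
  have hd2 : (p' - q') ∣ (p - q) := by
    have h1 : bsA p q ^ (p - q) ∈ commutator (BS p q) :=
      ((BA p q hp hq).1 _).2 dvd_rfl
    have h2 := hcom _ _ β.toMonoidHom _ h1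
    have h3 : bsA p' q' ^ (e * (p - q)) ∈ commutator (BS p' q') := by
      rw [← hβm]
      exact h2
    have h4 := ((BA p' q' hp' hq').1 _).1 h3
    have h5 : p - q = e * (e * (p - q)) := by rw [← mul_assoc, he, one_mul]
    rw [h5]
    exact Dvd.dvd.mul_left h4 e
  have habs : p' - q' = p - q ∨ p' - q' = -(p - q) := by
    have := Int.natAbs_eq_natAbs_iff.1 (Nat.dvd_antisymm (Int.natAbs_dvd_natAbs.2 hd2)
      (Int.natAbs_dvd_natAbs.2 hd1))
    exact this
  by_cases hpq : p = q
  · subst hpq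
    have hpq' : p' = q' := by
      rcases habs with h | h <;> omega
    subst hpq'
    have hc1 : p ∣ p' := by
      refine ((BA p p hp hp).2 p').1 fun g => ?_
      have h1 := ((BA p' p' hp' hp').2 (e * p')).2 (Dvd.intro_left e rfl) (β g)
      have h2 := congrArg β.symm h1
      rw [map_mul, map_mul, MulEquiv.symm_apply_apply, hsm, ← mul_assoc, he, one_mul] at h2
      exact h2
    have hc2 : p' ∣ p := by
      refine ((BA p' p' hp' hp').2 p).1 fun g => ?_
      have h1 := ((BA p p hp hp).2 (e * p)).2 (Dvd.intro_left e rfl) (β.symm g)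
      have h2 := congrArg β h1
      rw [map_mul, map_mul, MulEquiv.apply_symm_apply, hβm, ← mul_assoc, he, one_mul] at h2
      exact h2
    have := Int.natAbs_eq_natAbs_iff.1 (Nat.dvd_antisymm (Int.natAbs_dvd_natAbs.2 hc2)
      (Int.natAbs_dvd_natAbs.2 hc1))
    rcases this with h | h
    · left; exact ⟨h, h⟩
    · right; left; exact ⟨h, h⟩
  · obtain ⟨D, hDt, hDa, hD⟩ := BM p q hp hq
    obtain ⟨D', hDt', hDa', hD'⟩ := BM p' q' hp' hq'
    have hcomp : ∀ g, D' (β g) = D g := by
      intro g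
      obtain ⟨c0, hc0⟩ : ∃ m n : ℤ, m ≠ 0 ∧ n ≠ 0 ∧ g * bsA p q ^ m * g⁻¹ = bsA p q ^ n := by
        let S : Subgroup (BS p q) :=
          { carrier := {g | ∃ m n : ℤ, m ≠ 0 ∧ n ≠ 0 ∧ g * bsA p q ^ m * g⁻¹ = bsA p q ^ n}
            mul_mem' := by
              rintro g h ⟨m, n, hm, hn, e⟩ ⟨m', n', hm', hn', e'⟩
              refine ⟨m' * m, n * n', mul_ne_zero hm' hm, mul_ne_zero hn hn', ?_⟩
              calc g * h * bsA p q ^ (m' * m) * (g * h)⁻¹
                  = g * (h * bsA p q ^ m' * h⁻¹) ^ m * g⁻¹ := by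
                    rw [conj_zpow, zpow_mul]
                    group
                _ = g * (bsA p q ^ n') ^ m * g⁻¹ := by rw [e']
                _ = (g * bsA p q ^ m * g⁻¹) ^ n' := by
                    rw [conj_zpow, ← zpow_mul, ← zpow_mul, mul_comm]
                _ = bsA p q ^ (n * n') := by rw [e, zpow_mul]
            one_mem' := ⟨1, 1, one_ne_zero, one_ne_zero, by simp⟩
            inv_mem' := by
              rintro g ⟨m, n, hm, hn, e⟩
              refine ⟨n, m, hn, hm, ?_⟩
              rw [← e]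
              group }
        refine bs_top S ?_ ?_ g
        · exact ⟨1, 1, one_ne_zero, one_ne_zero, by simp⟩
        · exact ⟨p, q, hp, hq, bs_rel p q⟩
      obtain ⟨n, hm, hn, hmn⟩ := hc0
      have h1 := hD g c0 n hmn
      have h2 := congrArg β hmn
      rw [map_mul, map_mul, map_inv, hβm, hβm] at h2
      have h3 := hD' (β g) _ _ h2
      push_cast at h3
      have hm' : (c0 : ℚ) ≠ 0 := by exact_mod_cast hm
      have he' : (e : ℚ) ≠ 0 := by exact_mod_cast he0
      apply Units.ext
      have h4 : (e : ℚ) * c0 * ((D' (β g) : ℚˣ) : ℚ) = (e : ℚ) * c0 * ((D g : ℚˣ) : ℚ) := by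
        rw [h1] at h3
        linear_combination -h3
      exact mul_left_cancel₀ (mul_ne_zero he' hm') h4
    have hr : ∀ g, D g ∈ Subgroup.zpowers (D (bsT p q)) := by
      intro g
      have := bs_top ((Subgroup.zpowers (D (bsT p q))).comap D) (by
        rw [Subgroup.mem_comap, hDa]
        exact one_mem _) (Subgroup.mem_zpowers _) g
      exact this
    have hr' : ∀ g, D' g ∈ Subgroup.zpowers (D' (bsT p' q')) := by
      intro g
      have := bs_top ((Subgroup.zpowers (D' (bsT p' q'))).comap D') (by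
        rw [Subgroup.mem_comap, hDa']
        exact one_mem _) (Subgroup.mem_zpowers _) g
      exact this
    have hx : D (bsT p q) ∈ Subgroup.zpowers (D' (bsT p' q')) := by
      rw [← hcomp]
      exact hr' _
    have hy : D' (bsT p' q') ∈ Subgroup.zpowers (D (bsT p q)) := by
      have h1 := hcomp (β.symm (bsT p' q'))
      rw [MulEquiv.apply_symm_apply] at h1
      rw [h1]
      exact hr _
    have hpQ : (p : ℚ) ≠ 0 := by exact_mod_cast hp
    have hqQ : (q : ℚ) ≠ 0 := by exact_mod_cast hq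
    have hpQ' : (p' : ℚ) ≠ 0 := by exact_mod_cast hp'
    have hqQ' : (q' : ℚ) ≠ 0 := by exact_mod_cast hq'
    have hne : p - q ≠ 0 := sub_ne_zero.2 hpq
    rcases units_pow _ _ hy hx with h | h
    · have h1 : (q' : ℚ) / p' = q / p := by
        rw [← hDt', ← hDt, h]
      have h2 : (q' : ℚ) * p = q * p' := by
        rwa [div_eq_div_iff hpQ' hpQ] at h1
      have h3 : q' * p = q * p' := by exact_mod_cast h2
      rcases habs with h4 | h4
      · left
        have h5 : p' = p := by
          apply mul_right_cancel₀ hne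
          linear_combination h3 + p * h4
        exact ⟨h5, by linarith⟩
      · right; left
        have h5 : p' = -p := by
          apply mul_right_cancel₀ hne
          linear_combination h3 + p * h4
        exact ⟨h5, by linarith⟩
    · have h1 : (q' : ℚ) / p' = p / q := by
        have h0 := congrArg (fun u : ℚˣ => (u : ℚ)) h
        simp only [Units.val_inv_eq_inv_val] at h0
        rw [hDt', hDt, inv_div] at h0
        exact h0
      have h2 : (q' : ℚ) * q = p * p' := by
        rwa [div_eq_div_iff hpQ' hqQ] at h1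
      have h3 : q' * q = p * p' := by exact_mod_cast h2
      rcases habs with h4 | h4
      · right; right; right
        have h5 : q' = -p := by
          apply mul_right_cancel₀ hne
          linear_combination -h3 - p * h4
        exact ⟨by linarith, h5⟩
      · right; right; left
        have h5 : q' = p := by
          apply mul_right_cancel₀ hne
          linear_combination -h3 - p * h4
        exact ⟨by linarith, h5⟩

end Pool.Agent.H66.OR
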